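import Pool.Agent.EternalGrid.Explicit

set_option autoImplicit false

namespace Pool.Agent.Results.MP_47ad0a_co.ExplicitConstant

/-- The `n × n` grid graph, the Cartesian product of two paths with `n` vertices. -/
def Grid (n : ℕ) : SimpleGraph (Fin n × Fin n) :=
  SimpleGraph.boxProd (SimpleGraph.pathGraph n) (SimpleGraph.pathGraph n)

/-- `D` is a dominating set of `G`. -/
def Dominating {V : Type} (G : SimpleGraph V) (D : Finset V) : Prop :=
  ∀ v, v ∉ D → ∃ u ∈ D, G.Adj u v

/-- One move of the guards: every guard of `D` stays where it is or goes to a neighbour, all at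
the same time, no two guards end on the same vertex, and afterwards the occupied set is `D'`. -/
def Move {V : Type} [DecidableEq V] (G : SimpleGraph V) (D D' : Finset V) : Prop :=
  ∃ f : V → V, Set.InjOn f (D : Set V) ∧ D.image f = D' ∧ ∀ x ∈ D, f x = x ∨ G.Adj x (f x)

/-- `S` is a winning strategy of the guards, as a function of the list of the attacks so far
(the last attack is the last entry): the occupied set is always dominating, and the attack `r`
is answered by one move after which `r` is occupied. -/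
def Strategy {V : Type} [DecidableEq V] (G : SimpleGraph V) (S : List V → Finset V) : Prop :=
  ∀ h : List V, Dominating G (S h) ∧
    ∀ r : V, Move G (S h) (S (h ++ [r])) ∧ r ∈ S (h ++ [r])

/-- The domination number. -/
noncomputable def dom {V : Type} (G : SimpleGraph V) : ℕ :=
  sInf {k : ℕ | ∃ D : Finset V, D.card = k ∧ Dominating G D}

/-- The m-eternal domination number: the least number of guards in the starting position of a
winning strategy. -/
noncomputable def eternalDom {V : Type} [DecidableEq V] (G : SimpleGraph V) : ℕ :=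
  sInf {k : ℕ | ∃ S : List V → Finset V, Strategy G S ∧ (S []).card = k}

lemma dominating_of {V : Type} [DecidableEq V] {G : SimpleGraph V} {F : Set (Finset V)}
    (h : EternalGrid.Closed G F) {D : Finset V} (hD : D ∈ F) : Dominating G D :=
  fun v hv => (EternalGrid.Closed.dominates h hD v).resolve_left hv

/-- A closed family of positions gives a memoryless strategy. -/
lemma strategy_of {V : Type} [DecidableEq V] {G : SimpleGraph V} {F : Set (Finset V)}
    (h : EternalGrid.Closed G F) {D₀ : Finset V} (hD₀ : D₀ ∈ F) :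
    ∃ next : Finset V → V → Finset V,
      (∀ D ∈ F, ∀ r, next D r ∈ F ∧ Move G D (next D r) ∧ r ∈ next D r) ∧
      Strategy G (fun l => l.foldl next D₀) := by
  classical
  have h' : ∀ D : Finset V, ∀ r : V, ∃ D' : Finset V, D ∈ F → D' ∈ F ∧ r ∈ D' ∧ Move G D D' := by
    intro D r
    by_cases hD : D ∈ F
    · obtain ⟨D', h1, h2, h3⟩ := h D hD r
      exact ⟨D', fun _ => ⟨h1, h2, h3⟩⟩
    · exact ⟨D, fun h => absurd h hD⟩
  choose next hnext using h'
  refine ⟨next, fun D hD r => ⟨(hnext D r hD).1, (hnext D r hD).2.2, (hnext D r hD).2.1⟩, ?_⟩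
  have hF : ∀ l : List V, l.foldl next D₀ ∈ F := by
    intro l
    induction l using List.reverseRecOn with
    | nil => exact hD₀
    | append_singleton l r ih =>
      rw [List.foldl_append]
      exact (hnext _ r ih).1
  intro l
  refine ⟨dominating_of h (hF l), fun r => ?_⟩
  simp only [List.foldl_append, List.foldl_cons, List.foldl_nil]
  exact ⟨(hnext _ r (hF l)).2.2, (hnext _ r (hF l)).2.1⟩

/-- For all `n` the m-eternal domination number of the `n × n` grid is at most its domination
number plus 215. For `n ≥ 21` both lie between `(n² + 4n - 116) / 5` and `(n² + 4n + 960) / 5`,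
and the upper bound is attained by a memoryless strategy that uses at most 30 positions. -/
theorem result :
    (∀ n : ℕ, dom (Grid n) ≤ eternalDom (Grid n) ∧ eternalDom (Grid n) ≤ dom (Grid n) + 215) ∧
    ∀ n : ℕ, 21 ≤ n →
      n ^ 2 + 4 * n ≤ 5 * dom (Grid n) + 116 ∧
      5 * eternalDom (Grid n) ≤ n ^ 2 + 4 * n + 960 ∧
      ∃ (K : ℕ) (F : Finset (Finset (Fin n × Fin n)))
        (next : Finset (Fin n × Fin n) → Fin n × Fin n → Finset (Fin n × Fin n)),
        5 * K ≤ n ^ 2 + 4 * n + 960 ∧ F.Nonempty ∧ F.card ≤ 30 ∧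
        ∀ D ∈ F, D.card = K ∧ Dominating (Grid n) D ∧
          (∀ r, next D r ∈ F ∧ Move (Grid n) D (next D r) ∧ r ∈ next D r) ∧
          Strategy (Grid n) (fun attacks => attacks.foldl next D) := by
  classical
  have hex : ∀ n : ℕ, ∃ D : Finset (Fin n × Fin n), D.card = dom (Grid n) ∧
      Dominating (Grid n) D := by
    intro n
    have hne : {k : ℕ | ∃ D : Finset (Fin n × Fin n), D.card = k ∧
        Dominating (Grid n) D}.Nonempty :=
      ⟨_, Finset.univ, rfl, fun v hv => absurd (Finset.mem_univ v) hv⟩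
    exact Nat.sInf_mem hne
  have hlow : ∀ n : ℕ, 20 ≤ n → n ^ 2 + 4 * n ≤ 5 * dom (Grid n) + 116 := by
    intro n hn
    obtain ⟨D, h1, h2⟩ := hex n
    rw [← h1, pow_two]
    apply EternalGrid.card_lower n hn D
    intro v
    by_cases hv : v ∈ D
    · exact Or.inl hv
    · exact Or.inr (h2 v hv)
  have hfam : ∀ n : ℕ, ∀ F : Set (Finset (Fin n × Fin n)), EternalGrid.Closed (Grid n) F →
      ∀ D ∈ F, eternalDom (Grid n) ≤ D.card := by
    intro n F hF D hD
    obtain ⟨next, _, h2⟩ := strategy_of hF hD
    exact Nat.sInf_le ⟨_, h2, rfl⟩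
  have hle : ∀ n : ℕ, dom (Grid n) ≤ eternalDom (Grid n) := by
    intro n
    obtain ⟨F, ⟨D, hD⟩, _, hF⟩ := EternalGrid.domino n
    obtain ⟨next, _, h2⟩ := strategy_of hF hD
    have hne : {k : ℕ | ∃ S : List (Fin n × Fin n) → Finset (Fin n × Fin n),
        Strategy (Grid n) S ∧ (S []).card = k}.Nonempty := ⟨_, _, h2, rfl⟩
    obtain ⟨S, h3, h4⟩ := Nat.sInf_mem hne
    have h5 : dom (Grid n) ≤ (S []).card := Nat.sInf_le ⟨S [], rfl, (h3 []).1⟩
    rw [h4] at h5
    exact h5
  have hup : ∀ n : ℕ, 21 ≤ n → 5 * eternalDom (Grid n) ≤ n ^ 2 + 4 * n + 960 := by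
    intro n hn
    obtain ⟨F, ⟨D, hD⟩, _, ⟨K, h1, h2⟩, hF⟩ := EternalGrid.closed_large n hn
    have h3 := hfam n _ hF D (Finset.mem_coe.2 hD)
    rw [h1 D hD] at h3
    rw [pow_two]
    omega
  refine ⟨fun n => ⟨hle n, ?_⟩, fun n hn => ⟨hlow n (by omega), hup n hn, ?_⟩⟩
  · rcases Nat.lt_or_ge n 21 with hn | hn
    · obtain ⟨F, ⟨D, hD⟩, h1, hF⟩ := EternalGrid.domino n
      have h2 := hfam n F hF D hD
      rw [h1 D hD] at h2
      have h3 : n * n ≤ 20 * 20 := Nat.mul_le_mul (by omega) (by omega)
      omega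
    · have h1 := hlow n (by omega)
      have h2 := hup n hn
      omega
  · obtain ⟨F, hne, hc, ⟨K, h1, h2⟩, hF⟩ := EternalGrid.closed_large n hn
    obtain ⟨D₀, hD₀⟩ := hne
    obtain ⟨next, h3, _⟩ := strategy_of hF (Finset.mem_coe.2 hD₀)
    refine ⟨K, F, next, by rw [pow_two]; exact h2, ⟨D₀, hD₀⟩, hc, fun D hD => ?_⟩
    refine ⟨h1 D hD, dominating_of hF (Finset.mem_coe.2 hD),
      fun r => h3 D (Finset.mem_coe.2 hD) r, ?_⟩
    have hmem : ∀ l : List (Fin n × Fin n), l.foldl next D ∈ F := by
      intro l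
      induction l using List.reverseRecOn with
      | nil => exact hD
      | append_singleton l r ih =>
        rw [List.foldl_append]
        exact Finset.mem_coe.1 (h3 _ (Finset.mem_coe.2 ih) r).1
    intro l
    refine ⟨dominating_of hF (Finset.mem_coe.2 (hmem l)), fun r => ?_⟩
    simp only [List.foldl_append, List.foldl_cons, List.foldl_nil]
    exact (h3 _ (Finset.mem_coe.2 (hmem l)) r).2

end Pool.Agent.Results.MP_47ad0a_co.ExplicitConstant
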